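import Pool.Agent.H979.DE.Stm

/-! A second moment argument. -/

set_option autoImplicit false

open MeasureTheory Finset Filter Pool.Agent.H41.Derrw Pool.Agent.H979.DE

namespace Pool.Agent.H383

theorem depz_cs {Ω : Type} [MeasurableSpace Ω] (ν : Measure Ω) [IsFiniteMeasure ν] (A : Set Ω)
    (f : Ω → ℝ) (h1 : Integrable f ν) (h2 : Integrable (fun ω => f ω ^ 2) ν) :
    (∫ ω in A, f ω ∂ν) ^ 2 ≤ ν.real A * ∫ ω in A, f ω ^ 2 ∂ν := by
  have key : ∀ x : ℝ, 0 ≤ ν.real A * (x * x) + (-2 * ∫ ω in A, f ω ∂ν) * x +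
      ∫ ω in A, f ω ^ 2 ∂ν := by
    intro x
    have e1 : ∫ ω in A, (f ω - x) ^ 2 ∂ν = ν.real A * (x * x) + (-2 * ∫ ω in A, f ω ∂ν) * x +
        ∫ ω in A, f ω ^ 2 ∂ν := by
      have e2 : ∀ ω, (f ω - x) ^ 2 = f ω ^ 2 + ((-2 * x) * f ω + x * x) := fun ω => by ring
      simp only [e2]
      have i1 : Integrable (fun ω => f ω ^ 2) (ν.restrict A) := h2.restrict
      have i2 : Integrable (fun ω => (-2 * x) * f ω) (ν.restrict A) := h1.restrict.const_mul _
      have i3 : Integrable (fun _ : Ω => x * x) (ν.restrict A) := integrable_const _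
      have i23 : Integrable (fun ω => (-2 * x) * f ω + x * x) (ν.restrict A) := i2.add i3
      rw [integral_add i1 i23, integral_add i2 i3, integral_const_mul,
        setIntegral_const, smul_eq_mul]
      ring
    rw [← e1]
    exact integral_nonneg fun ω => sq_nonneg _
  have h3 := discrim_le_zero key
  unfold discrim at h3
  nlinarith [h3]

theorem de_pz : S_PZ := by
  intro Ω _ ν _ E Y R r c C hE hY hR hr hYC hRr h1 h2 h4 hc
  have iY : Integrable Y ν := Integrable.of_bound hY.aestronglyMeasurable C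
    (Eventually.of_forall fun ω => by rw [Real.norm_eq_abs]; exact hYC ω)
  have iY2 : Integrable (fun ω => Y ω ^ 2) ν := Integrable.of_bound
    (hY.pow_const 2).aestronglyMeasurable (C ^ 2) (Eventually.of_forall fun ω => by
      rw [Real.norm_eq_abs, abs_pow]
      exact pow_le_pow_left₀ (abs_nonneg _) (hYC ω) 2)
  have iY4 : Integrable (fun ω => Y ω ^ 4) ν := Integrable.of_bound
    (hY.pow_const 4).aestronglyMeasurable (C ^ 4) (Eventually.of_forall fun ω => by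
      rw [Real.norm_eq_abs, abs_pow]
      exact pow_le_pow_left₀ (abs_nonneg _) (hYC ω) 4)
  have iY22 : Integrable (fun ω => (Y ω ^ 2) ^ 2) ν := by
    refine iY4.congr (Eventually.of_forall fun ω => ?_)
    ring
  have iR : Integrable R ν := Integrable.of_bound hR.aestronglyMeasurable r
    (Eventually.of_forall fun ω => by
      rw [Real.norm_eq_abs, abs_of_nonneg (hRr ω).1]
      exact (hRr ω).2)
  obtain ⟨t, ht⟩ : ∃ t, t = ν.real Set.univ := ⟨_, rfl⟩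
  obtain ⟨e, he⟩ : ∃ e, e = ν.real E := ⟨_, rfl⟩
  obtain ⟨a, ha⟩ : ∃ a, a = ν.real Eᶜ := ⟨_, rfl⟩
  have hsum : e + a = t := by
    rw [he, ha, ht]
    exact measureReal_add_measureReal_compl hE
  have he0 : 0 ≤ e := by rw [he]; exact measureReal_nonneg
  have ha0 : 0 ≤ a := by rw [ha]; exact measureReal_nonneg
  -- the integrals over `E`
  have j1 : ∫ ω in E, Y ω ∂ν = e * c := by
    rw [setIntegral_congr_fun hE (g := fun _ => c) (fun ω hω => (hc ω hω).1), setIntegral_const,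
      smul_eq_mul, he]
  have j2 : ∫ ω in E, Y ω ^ 2 ∂ν = e * c ^ 2 := by
    rw [setIntegral_congr_fun hE (g := fun _ => c ^ 2) (fun ω hω => by
      show Y ω ^ 2 = c ^ 2
      rw [(hc ω hω).1]), setIntegral_const, smul_eq_mul, he]
  have j4 : ∫ ω in E, Y ω ^ 4 ∂ν = e * c ^ 4 := by
    rw [setIntegral_congr_fun hE (g := fun _ => c ^ 4) (fun ω hω => by
      show Y ω ^ 4 = c ^ 4
      rw [(hc ω hω).1]), setIntegral_const, smul_eq_mul, he]
  have jR : ∫ ω in E, R ω ∂ν = 0 := by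
    rw [setIntegral_congr_fun hE (g := fun _ => (0 : ℝ)) (fun ω hω => (hc ω hω).2),
      setIntegral_const, smul_zero]
  have k1 := integral_add_compl hE iY
  have k2 := integral_add_compl hE iY2
  have k4 := integral_add_compl hE iY4
  have kR := integral_add_compl hE iR
  have l2 : ∫ ω, (Y ω ^ 2 + R ω) ∂ν = ∫ ω, Y ω ^ 2 ∂ν + ∫ ω, R ω ∂ν := integral_add iY2 iR
  obtain ⟨X1, hX1⟩ : ∃ X1, X1 = ∫ ω in Eᶜ, Y ω ∂ν := ⟨_, rfl⟩
  obtain ⟨X2, hX2⟩ : ∃ X2, X2 = ∫ ω in Eᶜ, Y ω ^ 2 ∂ν := ⟨_, rfl⟩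
  obtain ⟨X4, hX4⟩ : ∃ X4, X4 = ∫ ω in Eᶜ, Y ω ^ 4 ∂ν := ⟨_, rfl⟩
  obtain ⟨XR, hXR⟩ : ∃ XR, XR = ∫ ω in Eᶜ, R ω ∂ν := ⟨_, rfl⟩
  have c1 : X1 ^ 2 ≤ a * X2 := by
    rw [hX1, hX2, ha]
    exact depz_cs ν Eᶜ Y iY iY2
  have c2 : X2 ^ 2 ≤ a * X4 := by
    have := depz_cs ν Eᶜ (fun ω => Y ω ^ 2) iY2 iY22
    have e4 : ∫ ω in Eᶜ, (Y ω ^ 2) ^ 2 ∂ν = X4 := by
      rw [hX4]
      refine integral_congr_ae (Eventually.of_forall fun ω => ?_)
      show (Y ω ^ 2) ^ 2 = Y ω ^ 4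
      ring
    rw [hX2, ha]
    rw [e4] at this
    exact this
  have cR : XR ≤ r * a := by
    rw [hXR, ha]
    have h5 : ∫ ω in Eᶜ, R ω ∂ν ≤ ∫ ω in Eᶜ, r ∂ν :=
      integral_mono iR.restrict (integrable_const _) (fun ω => (hRr ω).2)
    rw [setIntegral_const, smul_eq_mul] at h5
    linarith
  have hX2' : 0 ≤ X2 := by
    rw [hX2]
    exact integral_nonneg fun ω => sq_nonneg _
  rw [← hX1, j1, h1] at k1
  rw [← hX2, j2] at k2
  rw [← hX4, j4] at k4
  rw [← hXR, jR] at kR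
  rw [l2, ← k2, ← kR, ← ht] at h2
  rw [← k4, ← ht] at h4
  rw [← he, ← ht]
  by_contra hcon
  push Not at hcon
  have ht0 : 0 < t := by
    by_contra h
    push Not at h
    have : a = 0 := by linarith
    nlinarith
  have hepos : 0 < e := by linarith
  -- `r e ^ 2 ≤ t X2`
  have m1 : r * e ^ 2 ≤ t * X2 := by
    have n1 : r * e ≤ e * c ^ 2 + X2 := by
      have : r * t = r * e + r * a := by rw [← hsum]; ring
      linarith
    have n2 : e ^ 2 * c ^ 2 ≤ a * X2 := by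
      have : X1 = -(e * c) := by linarith
      rw [this] at c1
      nlinarith [c1]
    have n3 : e * (r * e) ≤ e * (e * c ^ 2 + X2) := mul_le_mul_of_nonneg_left n1 he0
    have n4 : t * X2 = e * X2 + a * X2 := by rw [← hsum]; ring
    nlinarith [n3, n2, n4]
  have m2 : X4 ≤ 19 * r ^ 2 * t := by
    have : 0 ≤ e * c ^ 4 := by positivity
    linarith
  have m3 : (r * e ^ 2) ^ 2 ≤ t ^ 2 * (a * (19 * r ^ 2 * t)) := by
    calc (r * e ^ 2) ^ 2 ≤ (t * X2) ^ 2 := pow_le_pow_left₀ (by positivity) m1 2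
      _ = t ^ 2 * X2 ^ 2 := by ring
      _ ≤ t ^ 2 * (a * X4) := mul_le_mul_of_nonneg_left c2 (by positivity)
      _ ≤ t ^ 2 * (a * (19 * r ^ 2 * t)) :=
          mul_le_mul_of_nonneg_left (mul_le_mul_of_nonneg_left m2 ha0) (by positivity)
  have m4 : e ^ 4 ≤ 19 * t ^ 3 * a := by
    have hr2 : 0 < r ^ 2 := by positivity
    have q1 : (r * e ^ 2) ^ 2 = r ^ 2 * e ^ 4 := by ring
    have q2 : t ^ 2 * (a * (19 * r ^ 2 * t)) = r ^ 2 * (19 * t ^ 3 * a) := by ring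
    rw [q1, q2] at m3
    exact le_of_mul_le_mul_left m3 hr2
  have m5 : (97 / 100 * t) ^ 4 < e ^ 4 := pow_lt_pow_left₀ hcon (by positivity) (by norm_num)
  have m6 : a < 3 / 100 * t := by linarith
  have m7 : 19 * t ^ 3 * a ≤ 19 * t ^ 3 * (3 / 100 * t) :=
    mul_le_mul_of_nonneg_left m6.le (by positivity)
  have m8 : 0 < t ^ 4 := by positivity
  clear m3 m1 m2 c1 c2 h2 h4 hX2'
  have m9 : (97 / 100 * t) ^ 4 = (97 / 100) ^ 4 * t ^ 4 := by ring
  have m10 : 19 * t ^ 3 * (3 / 100 * t) = 57 / 100 * t ^ 4 := by ring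
  rw [m9] at m5
  rw [m10] at m7
  have m11 : (57 / 100 : ℝ) * t ^ 4 ≤ (97 / 100) ^ 4 * t ^ 4 :=
    mul_le_mul_of_nonneg_right (by norm_num) m8.le
  linarith

end Pool.Agent.H383
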