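import Mathlib
import Pool.Agent.H465.OC.StmB

/-! # `E_8 = E_4^2`, `E_10 = E_4 E_6`, `E_14 = E_4^2 E_6` as q-series over the rationals -/

set_option autoImplicit false

noncomputable section

open UpperHalfPlane ModularForm SlashInvariantForm SlashInvariantFormClass ModularFormClass
open MatrixGroups EisensteinSeries
open scoped Topology

namespace Pool.Agent.H383.OCEisId

theorem uniq {k : ℕ} (hk : 3 ≤ k) (hk2 : Even k)
    (hr : Module.rank ℂ (ModularForm 𝒮ℒ (k : ℤ)) = 1) (f : ModularForm 𝒮ℒ (k : ℤ))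
    (hf : (qExpansion 1 f).coeff 0 = 1) : qExpansion 1 f = qExpansion 1 (E hk) := by
  obtain ⟨c, hc⟩ := (finrank_eq_one_iff_of_nonzero' (E hk) (E_ne_zero hk hk2)).mp
    (Module.rank_eq_one_iff_finrank_eq_one.mp hr) f
  have h1 : qExpansion 1 f = c • qExpansion 1 (E hk) := by
    rw [← ModularForm.qExpansion_smul one_pos one_mem_strictPeriods_SL c (E hk),
      show (c • E hk : ℍ → ℂ) = f from congrArg DFunLike.coe hc]
  have h2 : c = 1 := by
    have h3 := congrArg (fun F => PowerSeries.coeff 0 F) h1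
    simp only [hf, PowerSeries.coeff_smul, E_qExpansion_coeff_zero hk hk2, smul_eq_mul, mul_one] at h3
    exact h3.symm
  rw [h1, h2, one_smul]

/-- the two series agree -/
theorem map_E {k : ℕ} (hk : 3 ≤ k) (hk2 : Even k) :
    PowerSeries.map (algebraMap ℚ ℂ) (Q279.FB.E k) = qExpansion 1 (E hk) := by
  ext m
  rw [PowerSeries.coeff_map, E_qExpansion_coeff hk hk2, Q279.FB.E, PowerSeries.coeff_mk]
  split_ifs with h
  · exact map_one _
  · simp

theorem map_inj : Function.Injective (PowerSeries.map (algebraMap ℚ ℂ)) := by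
  intro a b h
  ext m
  have h1 := congrArg (PowerSeries.coeff m) h
  rw [PowerSeries.coeff_map, PowerSeries.coeff_map] at h1
  exact (algebraMap ℚ ℂ).injective h1

/-- the product of two Eisenstein series -/
theorem prod {a b k : ℕ} (ha : 3 ≤ a) (hb : 3 ≤ b) (ha2 : Even a) (hb2 : Even b) (hk : 3 ≤ k)
    (hk2 : Even k) (hab : a + b = k) (hr : Module.rank ℂ (ModularForm 𝒮ℒ (k : ℤ)) = 1) :
    Q279.FB.E k = Q279.FB.E a * Q279.FB.E b := by
  apply map_inj
  rw [map_mul, map_E hk hk2, map_E ha ha2, map_E hb hb2]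
  have hw : ((a : ℤ) + (b : ℤ)) = (k : ℤ) := by exact_mod_cast hab
  have h1 := uniq hk hk2 hr (ModularForm.mcast hw ((E ha).mul (E hb)))
  have h2 : qExpansion 1 (ModularForm.mcast hw ((E ha).mul (E hb))) =
      qExpansion 1 (E ha) * qExpansion 1 (E hb) :=
    ModularForm.qExpansion_mul one_pos one_mem_strictPeriods_SL (E ha) (E hb)
  rw [← h2]
  refine (h1 ?_).symm
  rw [h2, PowerSeries.coeff_zero_eq_constantCoeff, map_mul, ← PowerSeries.coeff_zero_eq_constantCoeff,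
    E_qExpansion_coeff_zero ha ha2, E_qExpansion_coeff_zero hb hb2, mul_one]

theorem rk (k : ℕ) (hk : k = 8 ∨ k = 10 ∨ k = 14) :
    Module.rank ℂ (ModularForm 𝒮ℒ (k : ℤ)) = 1 := by
  rcases hk with rfl | rfl | rfl
  · rw [ModularForm.dimension_level_one 8 ⟨4, rfl⟩, if_neg (by decide)]
    norm_num
  · rw [ModularForm.dimension_level_one 10 ⟨5, rfl⟩, if_neg (by decide)]
    norm_num
  · rw [ModularForm.dimension_level_one 14 ⟨7, rfl⟩, if_pos (by decide)]
    norm_num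

theorem main : Pool.Agent.H465.OC.EisId := by
  have h8 : Q279.FB.E 8 = Q279.FB.E 4 * Q279.FB.E 4 :=
    prod (by norm_num) (by norm_num) ⟨2, rfl⟩ ⟨2, rfl⟩ (by norm_num) ⟨4, rfl⟩ rfl
      (rk 8 (Or.inl rfl))
  have h10 : Q279.FB.E 10 = Q279.FB.E 4 * Q279.FB.E 6 :=
    prod (by norm_num) (by norm_num) ⟨2, rfl⟩ ⟨3, rfl⟩ (by norm_num) ⟨5, rfl⟩ rfl
      (rk 10 (Or.inr (Or.inl rfl)))
  have h14 : Q279.FB.E 14 = Q279.FB.E 8 * Q279.FB.E 6 :=
    prod (by norm_num) (by norm_num) ⟨4, rfl⟩ ⟨3, rfl⟩ (by norm_num) ⟨7, rfl⟩ rfl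
      (rk 14 (Or.inr (Or.inr rfl)))
  refine ⟨?_, h10, ?_⟩
  · rw [h8, sq]
  · rw [h14, h8, sq]

end Pool.Agent.H383.OCEisId
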