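import Pool.Agent.H857.TF.Core4

/-!
# V2: `p` does not split in the imaginary quadratic field (helper383)
-/

set_option autoImplicit false

namespace Pool.Agent.H383.TF4

open Module Polynomial Pool.Agent.W521.Descent Pool.Agent.W521.Density Pool.Agent.W521.Count
  Pool.Agent.X297.UB Pool.Agent.H857.PB Pool.Agent.H857.PA Pool.Agent.H857.HK Pool.Agent.H857.EF
  Pool.Agent.H857.WT Pool.Agent.H857.SG Pool.Agent.H857.PD Pool.Agent.H857.TF

/-- the constant terms of all monic divisors -/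
theorem norm_dvd {p : ℕ} [Fact p.Prime] {a : ℕ} {f : ℤ[X]} (hHT : HondaTate p a f) :
    ∀ (n : ℕ) (u : ℚ_[p][X]), u.natDegree = n → u.Monic →
      u ∣ f.map (Int.castRingHom ℚ_[p]) → ∃ m : ℕ, ‖u.coeff 0‖ = (((p : ℝ) ^ a)⁻¹) ^ m := by
  intro n
  induction n using Nat.strong_induction_on with
  | _ n ih =>
    intro u hun hum hud
    by_cases hu1 : u = 1
    · refine ⟨0, ?_⟩
      rw [hu1, coeff_one_zero, pow_zero, NormOneClass.norm_one]
    · have hnu : ¬ IsUnit u := fun h => hu1 (hum.eq_one_of_isUnit h)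
      obtain ⟨v, hvm, hvi, hvu⟩ := exists_monic_irreducible_factor u hnu
      obtain ⟨w, hw⟩ := hvu
      have hwm : w.Monic := hvm.of_mul_monic_left (by rw [← hw]; exact hum)
      have hdeg : u.natDegree = v.natDegree + w.natDegree := by
        rw [hw]
        exact hvm.natDegree_mul hwm
      have hv1 : 0 < v.natDegree := hvi.natDegree_pos
      obtain ⟨m₁, hm₁⟩ := hHT v hvm hvi (dvd_trans ⟨w, hw⟩ hud)
      obtain ⟨m₂, hm₂⟩ := ih w.natDegree (by omega) w rfl hwm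
        (dvd_trans ⟨v, by rw [hw, mul_comm]⟩ hud)
      refine ⟨m₁ + m₂, ?_⟩
      rw [hw, mul_coeff_zero, norm_mul, hm₁, hm₂, pow_add]

/-- the conjugation of the imaginary quadratic field extends to the `p`-adic field -/
theorem exists_conj {p : ℕ} [Fact p.Prime] (D : ℕ) (s : PadicAlgCl p)
    (hs : s ^ 2 = -(D : PadicAlgCl p)) (hr : s ∉ (algebraMap ℚ_[p] (PadicAlgCl p)).range) :
    ∃ σ : PadicAlgCl p ≃ₐ[ℚ_[p]] PadicAlgCl p, σ s = -s := by
  have hint : IsIntegral ℚ_[p] s := Algebra.IsIntegral.isIntegral s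
  have hroot : aeval s (X ^ 2 + C (D : ℚ_[p]) : ℚ_[p][X]) = 0 := by
    rw [map_add, map_pow, aeval_X, aeval_C, hs, map_natCast, neg_add_cancel]
  have hmon : (X ^ 2 + C (D : ℚ_[p]) : ℚ_[p][X]).Monic := monic_X_pow_add_C _ two_ne_zero
  have hdvd := minpoly.dvd ℚ_[p] s hroot
  have h2 : 2 ≤ (minpoly ℚ_[p] s).natDegree := (minpoly.two_le_natDegree_iff hint).2 hr
  have heq : X ^ 2 + C (D : ℚ_[p]) = minpoly ℚ_[p] s := by
    refine eq_of_monic_of_dvd_of_natDegree_le (minpoly.monic hint) hmon hdvd ?_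
    rw [natDegree_X_pow_add_C]
    exact h2
  have h3 : aeval (-s) (minpoly ℚ_[p] s) = 0 := by
    rw [← heq, map_add, map_pow, aeval_X, aeval_C, neg_sq, hs, map_natCast, neg_add_cancel]
  obtain ⟨σ, hσ⟩ := minpoly.exists_algEquiv_of_root hint.isAlgebraic h3
  rw [map_neg] at hσ
  exact ⟨σ, by linear_combination -hσ⟩

theorem v2 : V2 := by
  intro p _ a g D f h ψ ha hg hfm hHT hhm hcoef hfac hNN
  have hp1 : (1 : ℝ) < p := by exact_mod_cast (Fact.out : p.Prime).one_lt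
  obtain ⟨s, hsdef⟩ : ∃ s, s = ψ (Real.sqrt D * Complex.I) := ⟨_, rfl⟩
  have hs2 : s ^ 2 = -(D : PadicAlgCl p) := by
    have h1 : ((Real.sqrt D : ℂ) * Complex.I) ^ 2 = -(D : ℂ) := by
      rw [mul_pow, Complex.I_sq, ← Complex.ofReal_pow, Real.sq_sqrt (Nat.cast_nonneg D)]
      push_cast
      ring
    rw [hsdef, ← map_pow, h1, map_neg, map_natCast]
  have hψ : ∀ x y : ℚ, ψ ((x : ℂ) + y * (Real.sqrt D * Complex.I)) =
      (x : PadicAlgCl p) + y * s := by
    intro x y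
    rw [map_add, map_mul, map_ratCast, map_ratCast, hsdef]
  by_cases hr : s ∈ (algebraMap ℚ_[p] (PadicAlgCl p)).range
  · exfalso
    obtain ⟨t, ht⟩ := hr
    -- the polynomial over the field of `p`-adic numbers
    have hlift : h.map ψ ∈ lifts (algebraMap ℚ_[p] (PadicAlgCl p)) := by
      rw [lifts_iff_coeff_lifts]
      intro j
      obtain ⟨x, y, hxy⟩ := hcoef j
      rw [coeff_map, hxy, hψ]
      refine ⟨(x : ℚ_[p]) + y * t, ?_⟩
      rw [map_add, map_mul, map_ratCast, map_ratCast, ht]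
    obtain ⟨h0, hh0, -, hh0m⟩ := lifts_and_natDegree_eq_and_monic hlift (hhm.map ψ)
    have hdvd : h0 ∣ f.map (Int.castRingHom ℚ_[p]) := by
      rw [← map_dvd_map (algebraMap ℚ_[p] (PadicAlgCl p))
        (algebraMap ℚ_[p] (PadicAlgCl p)).injective hh0m, hh0]
      have e1 : (f.map (Int.castRingHom ℚ_[p])).map (algebraMap ℚ_[p] (PadicAlgCl p)) =
          (f.map (Int.castRingHom ℂ)).map ψ := by
        rw [Polynomial.map_map, Polynomial.map_map]
        exact congrArg (fun e => f.map e) (RingHom.ext_int _ _)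
      rw [e1, hfac, Polynomial.map_mul]
      exact dvd_mul_right _ _
    obtain ⟨n, hn⟩ := norm_dvd hHT _ h0 rfl hh0m hdvd
    obtain ⟨N, hN0, hN⟩ := hNN
    have hnorm : ‖ψ (h.coeff 0)‖ = (((p : ℝ) ^ a)⁻¹) ^ n := by
      have e1 : ψ (h.coeff 0) = algebraMap ℚ_[p] (PadicAlgCl p) (h0.coeff 0) := by
        rw [← coeff_map, ← hh0, coeff_map]
      rw [e1, ← hn]
      exact PadicAlgCl.norm_extends _ _
    have hpn : ‖(p : PadicAlgCl p)‖ = (p : ℝ)⁻¹ := by
      have e1 : (p : PadicAlgCl p) = algebraMap ℚ_[p] (PadicAlgCl p) (p : ℚ_[p]) := by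
        rw [map_natCast]
      rw [e1, ← Padic.norm_p]
      exact PadicAlgCl.norm_extends _ _
    have h1 := congrArg (fun z => ‖ψ z‖) hN
    simp only [map_pow, Nat.cast_pow, map_natCast, norm_pow, hnorm, hpn] at h1
    rw [inv_pow (p : ℝ) a, ← pow_mul (((p : ℝ) ^ a)⁻¹) n, ← pow_mul (((p : ℝ) ^ a)⁻¹) g] at h1
    have hq0 : 0 < ((p : ℝ) ^ a)⁻¹ := by positivity
    have hq1 : ((p : ℝ) ^ a)⁻¹ < 1 := inv_lt_one_of_one_lt₀ (one_lt_pow₀ hp1 ha.ne')
    have h2 := pow_right_injective₀ hq0 hq1.ne h1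
    obtain ⟨m, hm⟩ := hg
    have h3 : N * (2 * n) = N * g := by
      have h4 : n * (2 * N) = g * N := h2
      calc N * (2 * n) = n * (2 * N) := by ring
        _ = g * N := h4
        _ = N * g := by ring
    have h4 := Nat.eq_of_mul_eq_mul_left hN0 h3
    omega
  · obtain ⟨σ, hσ⟩ := exists_conj D s hs2 hr
    refine ⟨σ, fun j => ?_⟩
    obtain ⟨x, y, hxy⟩ := hcoef j
    have e1 : (starRingEnd ℂ) ((x : ℂ) + y * (Real.sqrt D * Complex.I)) =
        (x : ℂ) + ((-y : ℚ) : ℂ) * (Real.sqrt D * Complex.I) := by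
      rw [map_add, map_mul, map_mul, Complex.conj_ofReal, Complex.conj_I, map_ratCast,
        map_ratCast]
      push_cast
      ring
    rw [hxy, e1, hψ, hψ, map_add, map_mul, map_ratCast, map_ratCast, hσ]
    push_cast
    ring

end Pool.Agent.H383.TF4
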